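import Mathlib

/-!
MP_11d8b4_co, Q1 (negated form): a consistent path system on a graph with 7 vertices and 9 edges
which is simply induced by integer weights (one of them negative) but by no nonnegative weights.
-/

set_option autoImplicit false

namespace Pool.Agent.Results.MP_11d8b4_co.NegativeEdgeNeeded

open SimpleGraph

variable {V : Type*} {G : SimpleGraph V}

/-- A path system on `G`: a simple path `path u v` of `G` from `u` to `v` for all vertices `u`, `v`;
the path from `v` to `u` is the same path, traversed backwards. -/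
structure PathSystem (G : SimpleGraph V) where
  path : ∀ u v : V, G.Walk u v
  isPath : ∀ u v, (path u v).IsPath
  symm : ∀ u v, path v u = (path u v).reverse

/-- The path system is consistent: for `x`, `y` on the path between `u` and `v` the path between `x`
and `y` is the subpath (contiguous part) between `x` and `y`. -/
def PathSystem.Consistent (P : PathSystem G) : Prop :=
  ∀ u v x y : V, x ∈ (P.path u v).support → y ∈ (P.path u v).support →
    (P.path x y).IsSubwalk (P.path u v) ∨ (P.path x y).IsSubwalk (P.path v u)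

/-- The weight of a walk: the sum of the weights of its edges. -/
noncomputable def weight (w : Sym2 V → ℝ) {u v : V} (p : G.Walk u v) : ℝ := (p.edges.map w).sum

/-- `w` simply induces the path system: for all `u ≠ v` the path of the system is the unique
simple path from `u` to `v` of minimum weight. -/
def SimplyInduces (w : Sym2 V → ℝ) (P : PathSystem G) : Prop :=
  ∀ u v : V, u ≠ v → ∀ q : G.Walk u v, q.IsPath → q ≠ P.path u v →
    weight w (P.path u v) < weight w q

/-! ### The example -/

/-- The nine edges `i j` (`i < j`) of the graph, with their weights. -/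
def W : ℕ → ℕ → ℤ
  | 0, 3 => 2
  | 2, 3 => 3
  | 0, 4 => 3
  | 2, 4 => 3
  | 0, 5 => 4
  | 1, 5 => 5
  | 0, 6 => 4
  | 1, 6 => 5
  | 1, 2 => -3
  | _, _ => 0

/-- Adjacency. -/
def A (i j : Fin 7) : Bool := W i.1 j.1 ≠ 0 || W j.1 i.1 ≠ 0

/-- The weight of the pair `i`, `j`. -/
def wt2 (i j : Fin 7) : ℤ := W i.1 j.1 + W j.1 i.1

/-- The graph. -/
def Gr : SimpleGraph (Fin 7) where
  Adj i j := A i j = true
  symm := ⟨by decide +kernel⟩
  loopless := ⟨by decide +kernel⟩

instance : DecidableRel Gr.Adj := fun i j => inferInstanceAs (Decidable (A i j = true))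

/-- The paths of the system, from the smaller to the larger vertex. -/
def T : ℕ → ℕ → List (Fin 7)
  | 0, 1 => [0, 3, 2, 1]
  | 0, 2 => [0, 3, 2]
  | 0, 3 => [0, 3]
  | 0, 4 => [0, 4]
  | 0, 5 => [0, 5]
  | 0, 6 => [0, 6]
  | 1, 2 => [1, 2]
  | 1, 3 => [1, 2, 3]
  | 1, 4 => [1, 2, 4]
  | 1, 5 => [1, 5]
  | 1, 6 => [1, 6]
  | 2, 3 => [2, 3]
  | 2, 4 => [2, 4]
  | 2, 5 => [2, 1, 5]
  | 2, 6 => [2, 1, 6]
  | 3, 4 => [3, 0, 4]
  | 3, 5 => [3, 2, 1, 5]
  | 3, 6 => [3, 2, 1, 6]
  | 4, 5 => [4, 2, 1, 5]
  | 4, 6 => [4, 2, 1, 6]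
  | 5, 6 => [5, 0, 6]
  | _, _ => []

/-- The support of the path from `u` to `v`. -/
def S (u v : Fin 7) : List (Fin 7) :=
  if u = v then [u] else if u < v then T u.1 v.1 else (T v.1 u.1).reverse

/-- The weight of a list of vertices. -/
def wtl : List (Fin 7) → ℤ
  | [] => 0
  | [_] => 0
  | a :: b :: l => wt2 a b + wtl (b :: l)

/-- All simple paths from `u` avoiding `vis`, of length at most `k`. -/
def paths : ℕ → List (Fin 7) → Fin 7 → List (List (Fin 7))
  | 0, _, u => [[u]]
  | k + 1, vis, u => [u] :: ((List.finRange 7).filter fun x => A u x && !(u :: vis).contains x).flatMap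
      fun x => (paths k (u :: vis) x).map (u :: ·)

theorem mem_paths {u v : Fin 7} (p : Gr.Walk u v) :
    ∀ (k : ℕ) (vis : List (Fin 7)), p.IsPath → p.length ≤ k → (∀ x ∈ p.support, x ∉ vis) →
      p.support ∈ paths k vis u := by
  induction p with
  | nil =>
    intro k vis _ _ _
    cases k <;> simp [paths]
  | @cons a b c h q ih =>
    intro k vis hp hk hv
    obtain ⟨k, rfl⟩ : ∃ k', k = k' + 1 := ⟨k - 1, by simp at hk; omega⟩
    rw [Walk.cons_isPath_iff] at hp
    simp only [paths, Walk.support_cons, List.mem_cons, List.mem_flatMap, List.mem_map,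
      List.mem_filter, List.mem_finRange, true_and]
    right
    refine ⟨b, ?_, q.support, ih k (a :: vis) hp.1 (by simpa using hk) ?_, rfl⟩
    · have hb : b ∈ q.support := q.start_mem_support
      have h1 : b ≠ a := fun e => hp.2 (e ▸ hb)
      have h2 : b ∉ vis := hv b (by simp [hb])
      have h3 : A a b = true := h
      simp [h1, h2, h3]
    · intro x hx
      have h1 : x ≠ a := fun e => hp.2 (e ▸ hx)
      have h2 : x ∉ vis := hv x (by simp [hx])
      simp [h1, h2]

theorem head_support {u v : Fin 7} (p : Gr.Walk u v) : p.support.head? = some u := by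
  cases p <;> simp

theorem last_support {u v : Fin 7} (p : Gr.Walk u v) : p.support.getLast? = some v := by
  rw [List.getLast?_eq_getLast_of_ne_nil p.support_ne_nil, Walk.getLast_support]

theorem check_min : ∀ u v : Fin 7, u ≠ v → ∀ l ∈ paths 7 [] u, l.getLast? = some v →
    l ≠ S u v → wtl (S u v) < wtl l := by
  decide +kernel

theorem exists_walk (u v : Fin 7) (l : List (Fin 7)) (h0 : l ≠ []) (hc : l.IsChain Gr.Adj)
    (hh : l.head? = some u) (hl : l.getLast? = some v) :
    ∃ p : Gr.Walk u v, p.support = l := by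
  have e1 : l.head h0 = u := by
    rw [List.head?_eq_some_head h0] at hh
    exact Option.some.inj hh
  have e2 : l.getLast h0 = v := by
    rw [List.getLast?_eq_some_getLast h0] at hl
    exact Option.some.inj hl
  subst e1 e2
  exact ⟨Walk.ofSupport l h0 hc, Walk.support_ofSupport h0 hc⟩

/-- A walk of the graph with a given list of vertices. -/
theorem walk_of (l : List (Fin 7)) (u v : Fin 7)
    (h : (l ≠ [] ∧ l.IsChain fun i j => A i j = true) ∧ l.head? = some u ∧ l.getLast? = some v) :
    ∃ p : Gr.Walk u v, p.support = l :=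
  exists_walk u v l h.1.1 h.1.2 h.2.1 h.2.2

theorem checkS : ∀ u v : Fin 7, (S u v ≠ [] ∧ (S u v).IsChain fun i j => A i j = true) ∧
    (S u v).head? = some u ∧ (S u v).getLast? = some v := by
  decide +kernel

theorem nodupS : ∀ u v : Fin 7, (S u v).Nodup := by
  decide +kernel

theorem reverseS : ∀ u v : Fin 7, S v u = (S u v).reverse := by
  decide +kernel

theorem infixS : ∀ u v x y : Fin 7, x ∈ S u v → y ∈ S u v →
    S x y <:+: S u v ∨ S x y <:+: S v u := by
  decide +kernel

/-- The path of the system. -/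
noncomputable def pth (u v : Fin 7) : Gr.Walk u v := (walk_of (S u v) u v (checkS u v)).choose

theorem support_pth (u v : Fin 7) : (pth u v).support = S u v :=
  (walk_of (S u v) u v (checkS u v)).choose_spec

/-- The path system. -/
noncomputable def PS : PathSystem Gr where
  path := pth
  isPath u v := by rw [Walk.isPath_def, support_pth]; exact nodupS u v
  symm u v := by
    apply Walk.ext_support
    rw [Walk.support_reverse, support_pth, support_pth, reverseS]

theorem consistent_PS : PS.Consistent := by
  intro u v x y hx hy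
  simp only [Walk.isSubwalk_iff_support_isInfix]
  change x ∈ (pth u v).support at hx
  change y ∈ (pth u v).support at hy
  change (pth x y).support <:+: (pth u v).support ∨ (pth x y).support <:+: (pth v u).support
  rw [support_pth] at hx hy
  rw [support_pth, support_pth, support_pth]
  exact infixS u v x y hx hy

/-- The weight of a list of vertices, for real weights. -/
noncomputable def wtr (w : Sym2 (Fin 7) → ℝ) : List (Fin 7) → ℝ
  | [] => 0
  | [_] => 0
  | a :: b :: l => w s(a, b) + wtr w (b :: l)

theorem weight_eq (w : Sym2 (Fin 7) → ℝ) {u v : Fin 7} (p : Gr.Walk u v) :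
    weight w p = wtr w p.support := by
  induction p with
  | nil => simp [weight, wtr]
  | @cons a b c h q ih =>
    cases q with
    | nil => simp [weight, wtr]
    | cons h' q' =>
      simp only [weight, Walk.edges_cons, List.map_cons, List.sum_cons, Walk.support_cons] at ih ⊢
      rw [wtr, ← ih]

/-- The real weights of the example. -/
noncomputable def w0 (e : Sym2 (Fin 7)) : ℝ :=
  Sym2.lift ⟨fun i j => ((wt2 i j : ℤ) : ℝ), fun i j => by simp only [wt2, add_comm]⟩ e

theorem wtr_w0 (l : List (Fin 7)) : wtr w0 l = (wtl l : ℝ) := by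
  induction l with
  | nil => simp [wtr, wtl]
  | cons a l ih =>
    cases l with
    | nil => simp [wtr, wtl]
    | cons b l =>
      rw [wtr, wtl, ih]
      push_cast
      rfl

theorem induces_w0 : SimplyInduces w0 PS := by
  intro u v huv q hq hne
  change q ≠ pth u v at hne
  change weight w0 (pth u v) < weight w0 q
  rw [weight_eq, weight_eq, wtr_w0, wtr_w0, support_pth]
  have hlen : q.length ≤ 7 := by
    have := hq.length_lt
    simp at this
    omega
  have h1 := mem_paths q 7 [] hq hlen (by simp)
  have h2 : q.support ≠ S u v := by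
    intro h
    exact hne (Walk.ext_support (h.trans (support_pth u v).symm))
  exact_mod_cast check_min u v huv q.support h1 (last_support q) h2

theorem use {w : Sym2 (Fin 7) → ℝ} (hw : SimplyInduces w PS) (u v : Fin 7) (huv : u ≠ v)
    (l : List (Fin 7))
    (h : (l ≠ [] ∧ l.IsChain fun i j => A i j = true) ∧ l.head? = some u ∧ l.getLast? = some v)
    (hn : l.Nodup) (hne : l ≠ S u v) : wtr w (S u v) < wtr w l := by
  obtain ⟨q, hq⟩ := walk_of l u v h
  have h1 := hw u v huv q (by rw [Walk.isPath_def, hq]; exact hn) (by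
    intro e
    apply hne
    rw [← hq, e]
    exact support_pth u v)
  change weight w (pth u v) < weight w q at h1
  rw [weight_eq, weight_eq, support_pth, hq] at h1
  exact h1

theorem neg_edge {w : Sym2 (Fin 7) → ℝ} (hw : SimplyInduces w PS) : w s(1, 2) < 0 := by
  have a1 := use hw 3 4 (by decide) [3, 2, 4] (by decide +kernel) (by decide) (by decide +kernel)
  have a2 := use hw 5 6 (by decide) [5, 1, 6] (by decide +kernel) (by decide) (by decide +kernel)
  have a3 := use hw 3 6 (by decide) [3, 0, 6] (by decide +kernel) (by decide) (by decide +kernel)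
  have a4 := use hw 4 6 (by decide) [4, 0, 6] (by decide +kernel) (by decide) (by decide +kernel)
  have a5 := use hw 3 5 (by decide) [3, 0, 5] (by decide +kernel) (by decide) (by decide +kernel)
  have a6 := use hw 4 5 (by decide) [4, 0, 5] (by decide +kernel) (by decide) (by decide +kernel)
  have s34 : S 3 4 = [3, 0, 4] := by decide +kernel
  have s56 : S 5 6 = [5, 0, 6] := by decide +kernel
  have s36 : S 3 6 = [3, 2, 1, 6] := by decide +kernel
  have s46 : S 4 6 = [4, 2, 1, 6] := by decide +kernel
  have s35 : S 3 5 = [3, 2, 1, 5] := by decide +kernel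
  have s45 : S 4 5 = [4, 2, 1, 5] := by decide +kernel
  rw [s34] at a1
  rw [s56] at a2
  rw [s36] at a3
  rw [s46] at a4
  rw [s35] at a5
  rw [s45] at a6
  have e1 : w s(3, 0) = w s(0, 3) := by rw [Sym2.eq_swap]
  have e2 : w s(5, 0) = w s(0, 5) := by rw [Sym2.eq_swap]
  have e3 : w s(2, 1) = w s(1, 2) := by rw [Sym2.eq_swap]
  have e4 : w s(4, 0) = w s(0, 4) := by rw [Sym2.eq_swap]
  have e5 : w s(3, 2) = w s(2, 3) := by rw [Sym2.eq_swap]
  have e6 : w s(4, 2) = w s(2, 4) := by rw [Sym2.eq_swap]
  have e7 : w s(5, 1) = w s(1, 5) := by rw [Sym2.eq_swap]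
  simp only [wtr, e1, e2, e3, e4, e5, e6, e7] at a1 a2 a3 a4 a5 a6
  linarith

theorem connected : Gr.Connected := by
  have : Nonempty (Fin 7) := ⟨0⟩
  exact ⟨fun u v => ⟨pth u v⟩⟩

theorem adj12 : s((1 : Fin 7), 2) ∈ Gr.edgeSet := by
  rw [SimpleGraph.mem_edgeSet]
  change A 1 2 = true
  decide +kernel

theorem card_edges : Gr.edgeSet.ncard = 9 := by
  have h : Gr.edgeFinset.card = 9 := by decide +kernel
  rw [← h, ← SimpleGraph.coe_edgeFinset, Set.ncard_coe_finset]

theorem result : ∃ (G : SimpleGraph (Fin 7)) (P : PathSystem G), G.Connected ∧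
    G.edgeSet.ncard = 9 ∧ P.Consistent ∧ (∃ w : Sym2 (Fin 7) → ℝ, SimplyInduces w P) ∧
    ¬ ∃ w : Sym2 (Fin 7) → ℝ, (∀ e ∈ G.edgeSet, 0 ≤ w e) ∧ SimplyInduces w P := by
  refine ⟨Gr, PS, connected, card_edges, consistent_PS, ⟨w0, induces_w0⟩, ?_⟩
  rintro ⟨w, hpos, hw⟩
  exact absurd (hpos _ adj12) (not_le.mpr (neg_edge hw))

end Pool.Agent.Results.MP_11d8b4_co.NegativeEdgeNeeded
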